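import Pool.Agent.Helper51.PF.Goals

/-! # Project PF, packet EXD -/

set_option autoImplicit false

open Finset

namespace Pool.Agent.Helper57.PF

open Pool.Agent.Helper51.PF

/-- few prime factors `> y` of `(m!)² - 1` -/
theorem few_primes {y : ℝ} {m : ℕ} (hy : 100 ≤ y) (hm : 3 ≤ m) (hmy : (m : ℝ) ≤ y) (S : Finset ℕ)
    (hS : ∀ p ∈ S, p.Prime ∧ y < p ∧ p ∣ m.factorial ^ 2 - 1) : S.card ≤ 2 * m := by
  have h1 : ∏ p ∈ S, p ∣ m.factorial ^ 2 - 1 :=
    Finset.prod_primes_dvd _ (fun p hp => (hS p hp).1.prime) (fun p hp => (hS p hp).2.2)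
  have h2 : 6 ≤ m.factorial := by
    calc 6 = Nat.factorial 3 := rfl
      _ ≤ m.factorial := Nat.factorial_le hm
  have h3 : 0 < m.factorial ^ 2 - 1 := by
    have : 6 ^ 2 ≤ m.factorial ^ 2 := Nat.pow_le_pow_left h2 2
    omega
  have h4 : ∏ p ∈ S, p ≤ m.factorial ^ 2 - 1 := Nat.le_of_dvd h3 h1
  have h5 : y ^ S.card ≤ ∏ p ∈ S, (p : ℝ) := by
    rw [← Finset.prod_const]
    exact Finset.prod_le_prod (fun p _ => by linarith) (fun p hp => (hS p hp).2.1.le)
  have h6 : (∏ p ∈ S, (p : ℝ)) < (m.factorial : ℝ) ^ 2 := by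
    have h7 : ∏ p ∈ S, p < m.factorial ^ 2 := by omega
    have h8 : ((∏ p ∈ S, p : ℕ) : ℝ) < ((m.factorial ^ 2 : ℕ) : ℝ) := Nat.cast_lt.2 h7
    rwa [Nat.cast_prod, Nat.cast_pow] at h8
  have h7 : (m.factorial : ℝ) ≤ y ^ m := by
    have h8 : (m.factorial : ℝ) ≤ (m : ℝ) ^ m := by exact_mod_cast Nat.factorial_le_pow m
    exact h8.trans (pow_le_pow_left₀ (Nat.cast_nonneg _) hmy _)
  have h8 : (m.factorial : ℝ) ^ 2 ≤ y ^ (2 * m) := by
    rw [mul_comm 2 m, pow_mul]
    exact pow_le_pow_left₀ (Nat.cast_nonneg _) h7 2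
  have h9 : y ^ S.card < y ^ (2 * m) := lt_of_le_of_lt h5 (h6.trans_le h8)
  exact ((pow_lt_pow_iff_right₀ (by linarith : (1 : ℝ) < y)).1 h9).le

theorem g_exd : G_EXD := by
  intro y M hy hM
  classical
  have hMy : (M : ℝ) ≤ y := by
    refine hM.trans ?_
    rw [Real.sqrt_le_left (by linarith)]
    nlinarith only [hy]
  set S : ℕ → Finset ℕ := fun m => (Finset.range (⌊2 * y⌋₊ + 1)).filter (fun p : ℕ => p.Prime ∧ y < p ∧
    ((m.factorial : ZMod p) = -1 ∨ (Even m ∧ (m.factorial : ZMod p) = 1))) with hS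
  have hSc : ∀ m ∈ Finset.Icc 1 M, (S m).card ≤ 2 * m := by
    intro m hm
    rw [mem_Icc] at hm
    have hdvd : ∀ p ∈ S m, p.Prime ∧ y < p ∧ (p ∣ m.factorial + 1 ∨ (Even m ∧ p ∣ m.factorial - 1)) := by
      intro p hp
      rw [hS, mem_filter] at hp
      obtain ⟨-, hp1, hp2, hp3⟩ := hp
      refine ⟨hp1, hp2, ?_⟩
      rcases hp3 with h | ⟨h0, h⟩
      · left
        rw [← CharP.cast_eq_zero_iff (ZMod p) p]
        push_cast
        rw [h]
        ring
      · right
        refine ⟨h0, ?_⟩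
        rw [← CharP.cast_eq_zero_iff (ZMod p) p, Nat.cast_sub (Nat.one_le_iff_ne_zero.2
          (Nat.factorial_ne_zero m)), h]
        simp
    rcases Nat.lt_or_ge m 3 with h3 | h3
    · have h4 : S m = ∅ := by
        rw [Finset.eq_empty_iff_forall_notMem]
        intro p hp
        obtain ⟨h5, h6, h7⟩ := hdvd p hp
        have h8 : 100 < p := by exact_mod_cast lt_of_le_of_lt hy h6
        have h9 : m = 1 ∨ m = 2 := by omega
        rcases h9 with rfl | rfl
        · rcases h7 with h | ⟨h, -⟩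
          · have := Nat.le_of_dvd (by norm_num) h
            norm_num at this
            omega
          · exact absurd h (by decide)
        · rcases h7 with h | ⟨-, h⟩
          · have := Nat.le_of_dvd (by norm_num) h
            have h10 : Nat.factorial 2 = 2 := rfl
            omega
          · have h10 : Nat.factorial 2 = 2 := rfl
            rw [h10] at h
            have := Nat.le_of_dvd (by norm_num) h
            omega
      rw [h4]
      simp
    · have hm0 : 1 ≤ m.factorial := Nat.one_le_iff_ne_zero.2 (Nat.factorial_ne_zero m)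
      have h10 : m.factorial ^ 2 - 1 = (m.factorial + 1) * (m.factorial - 1) := by
        have := Nat.sq_sub_sq m.factorial 1
        simpa using this
      refine few_primes hy h3 ?_ (S m) fun p hp => ?_
      · have : (m : ℝ) ≤ M := by exact_mod_cast hm.2
        linarith
      · obtain ⟨h5, h6, h7⟩ := hdvd p hp
        refine ⟨h5, h6, ?_⟩
        rw [h10]
        rcases h7 with h | ⟨-, h⟩
        · exact Dvd.dvd.mul_right h _
        · exact Dvd.dvd.mul_left h _
  have hsub : ∀ p ∈ (Finset.range (⌊2 * y⌋₊ + 1)).filter (fun p : ℕ => p.Prime ∧ y < p ∧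
    ∃ m : ℕ, 1 ≤ m ∧ m ≤ M ∧ ((m.factorial : ZMod p) = -1 ∨
      (Even m ∧ (m.factorial : ZMod p) = 1))), p ∈ (Finset.Icc 1 M).biUnion S := by
    intro p hp
    rw [mem_filter] at hp
    obtain ⟨h1, h2, h3, m, h4, h5, h6⟩ := hp
    rw [mem_biUnion]
    refine ⟨m, mem_Icc.2 ⟨h4, h5⟩, ?_⟩
    rw [hS, mem_filter]
    exact ⟨h1, h2, h3, h6⟩
  have h1 := (Finset.card_le_card hsub).trans (Finset.card_biUnion_le.trans (Finset.sum_le_sum hSc))
  have h2 : ∑ m ∈ Finset.Icc 1 M, 2 * m ≤ 2 * M ^ 2 := by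
    calc ∑ m ∈ Finset.Icc 1 M, 2 * m ≤ ∑ m ∈ Finset.Icc 1 M, 2 * M :=
          Finset.sum_le_sum fun m hm => by
            rw [mem_Icc] at hm
            omega
      _ = 2 * M ^ 2 := by
          rw [Finset.sum_const, Nat.card_Icc, smul_eq_mul, Nat.add_sub_cancel]
          ring
  have h3 := h1.trans h2
  exact_mod_cast h3

end Pool.Agent.Helper57.PF
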