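import Pool.Agent.Helper51.PF.Goals

/-! # Project PF, packet FAR -/

set_option autoImplicit false
set_option linter.unusedSectionVars false

open Finset

namespace Pool.Agent.Helper57.PF

open Pool.Agent.Helper51.PF

/-- the largest element of `R` below `r`, or `0` -/
def prv (R : Finset ℕ) (r : ℕ) : ℕ := (R.filter (fun x => x < r)).sup id

theorem prv_le (R : Finset ℕ) (r : ℕ) : prv R r ≤ r := by
  unfold prv
  refine Finset.sup_le fun x hx => ?_
  rw [mem_filter] at hx
  exact hx.2.le

theorem le_prv {R : Finset ℕ} {r x : ℕ} (hx : x ∈ R) (hxr : x < r) : x ≤ prv R r := by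
  unfold prv
  exact Finset.le_sup (f := id) (mem_filter.2 ⟨hx, hxr⟩)

theorem prv_mem (R : Finset ℕ) (r : ℕ) : prv R r = 0 ∨ (prv R r ∈ R ∧ prv R r < r) := by
  rcases (R.filter (fun x => x < r)).eq_empty_or_nonempty with h | h
  · left
    unfold prv
    rw [h]
    rfl
  · right
    obtain ⟨x, hx, hx2⟩ := Finset.exists_mem_eq_sup _ h id
    unfold prv
    rw [hx2]
    rw [mem_filter] at hx
    exact hx

variable {G : Type} [CommGroup G] [Fintype G]

/-- the block before `r` -/
def blk (n : ℕ) (R : Finset ℕ) (r : ℕ) : Finset (Fin n) :=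
  univ.filter fun i : Fin n => prv R r ≤ (i : ℕ) ∧ (i : ℕ) < r

theorem Tpr_split {n : ℕ} (v : Fin n → G) (τ : Equiv.Perm (Fin n)) (R : Finset ℕ) (r : ℕ) :
    Tpr v τ r = Tpr v τ (prv R r) * bprod v τ (blk n R r) := by
  unfold Tpr bprod blk
  rw [← Finset.prod_union]
  · congr 1
    ext i
    simp only [mem_filter, mem_univ, true_and, mem_union]
    have := prv_le R r
    omega
  · rw [Finset.disjoint_left]
    intro i hi hi'
    rw [mem_filter] at hi hi'
    omega

theorem Tpr_zero {n : ℕ} (v : Fin n → G) (τ : Equiv.Perm (Fin n)) : Tpr v τ 0 = 1 := by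
  unfold Tpr bprod
  rw [Finset.filter_false_of_mem (fun i _ => Nat.not_lt_zero _), Finset.prod_empty]

theorem iff_blocks {n : ℕ} (v : Fin n → G) (τ : Equiv.Perm (Fin n)) (R : Finset ℕ) (t : ℕ → G)
    (h0 : 0 ∉ R) : (∀ r ∈ R, Tpr v τ r = t r) ↔
    ∀ r ∈ R, bprod v τ (blk n R r) = t r * (if prv R r = 0 then 1 else t (prv R r))⁻¹ := by
  constructor
  · intro h r hr
    have h1 := Tpr_split v τ R r
    rw [h r hr] at h1
    rcases prv_mem R r with h2 | ⟨h2, -⟩
    · rw [h2, Tpr_zero, one_mul] at h1
      rw [if_pos h2, h1, inv_one, mul_one]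
    · have h3 : prv R r ≠ 0 := fun h => h0 (h ▸ h2)
      rw [h _ h2] at h1
      rw [if_neg h3, h1, mul_comm (t (prv R r)), mul_inv_cancel_right]
  · intro h r
    induction r using Nat.strong_induction_on with
    | _ r ih =>
      intro hr
      rw [Tpr_split v τ R r, h r hr]
      rcases prv_mem R r with h2 | ⟨h2, h4⟩
      · rw [if_pos h2, h2, Tpr_zero, one_mul, inv_one, mul_one]
      · have h3 : prv R r ≠ 0 := fun h => h0 (h ▸ h2)
        rw [ih _ h4 h2, if_neg h3, mul_comm, inv_mul_cancel_right]

theorem g_far (hLF : G_LF) : G_FAR := by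
  intro G _ _ n L v R t hv hn hL hR1 hR2
  classical
  have h0 : (0 : ℕ) ∉ R := fun h => by
    have := (hR1 0 h).1
    omega
  let e : R ≃ Fin R.card := R.equivFin
  have hlt : ∀ r ∈ R, ∀ r' ∈ R, r < r' → Disjoint (blk n R r) (blk n R r') := by
    intro r hr r' hr' h
    rw [Finset.disjoint_left]
    intro i hi hi'
    unfold blk at hi hi'
    rw [mem_filter] at hi hi'
    have := le_prv hr h
    omega
  have hdis : ∀ r ∈ R, ∀ r' ∈ R, r ≠ r' → Disjoint (blk n R r) (blk n R r') := by
    intro r hr r' hr' h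
    rcases lt_or_gt_of_ne h with h1 | h1
    · exact hlt r hr r' hr' h1
    · exact (hlt r' hr' r hr h1).symm
  have hcard : ∀ r ∈ R, L ≤ (blk n R r).card := by
    intro r hr
    have h1 := hR1 r hr
    have h2 : prv R r + L ≤ r := by
      rcases prv_mem R r with h3 | ⟨h3, h4⟩
      · rw [h3]
        omega
      · exact hR2 _ h3 r hr h4
    have h3 : (Finset.range L).card ≤ (blk n R r).card := by
      refine Finset.card_le_card_of_injOn (fun i => (⟨(prv R r + i) % n, Nat.mod_lt _ (by omega)⟩ : Fin n))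
        ?_ ?_
      · intro i hi
        rw [mem_coe, mem_range] at hi
        rw [mem_coe, blk, mem_filter]
        have h5 : (prv R r + i) % n = prv R r + i := Nat.mod_eq_of_lt (by omega)
        refine ⟨mem_univ _, ?_, ?_⟩
        · simp only [h5]; omega
        · simp only [h5]; omega
      · intro i hi i' hi' h
        rw [mem_coe, mem_range] at hi hi'
        have h5 := congrArg Fin.val h
        simp only at h5
        rw [Nat.mod_eq_of_lt (by omega), Nat.mod_eq_of_lt (by omega)] at h5
        omega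
    rwa [card_range] at h3
  have hrest : L ≤ ((∅ ∪ univ.biUnion (fun j => blk n R (e.symm j)))ᶜ : Finset (Fin n)).card := by
    have h3 : (Finset.range L).card ≤
        ((∅ ∪ univ.biUnion (fun j => blk n R (e.symm j)))ᶜ : Finset (Fin n)).card := by
      refine Finset.card_le_card_of_injOn (fun i => (⟨(n - L + i) % n, Nat.mod_lt _ (by omega)⟩ : Fin n))
        ?_ ?_
      · intro i hi
        rw [mem_coe, mem_range] at hi
        rw [mem_coe, mem_compl, empty_union, mem_biUnion]
        rintro ⟨j, -, hj⟩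
        rw [blk, mem_filter] at hj
        have h5 : (n - L + i) % n = n - L + i := Nat.mod_eq_of_lt (by omega)
        simp only [h5] at hj
        have h6 := hR1 _ (e.symm j).2
        omega
      · intro i hi i' hi' h
        rw [mem_coe, mem_range] at hi hi'
        have h5 := congrArg Fin.val h
        simp only at h5
        rw [Nat.mod_eq_of_lt (by omega), Nat.mod_eq_of_lt (by omega)] at h5
        omega
    rwa [card_range] at h3
  have key := hLF G n L R.card v ∅ 1 (fun j => blk n R (e.symm j))
    (fun j => t (e.symm j) * (if prv R (e.symm j) = 0 then 1 else t (prv R (e.symm j)))⁻¹) hv hn hL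
    (by simp) (fun j => disjoint_empty_right _)
    (fun j j' h => hdis _ (e.symm j).2 _ (e.symm j').2 (fun h' => h (e.symm.injective (Subtype.ext h'))))
    (fun j => hcard _ (e.symm j).2) hrest
  have hcls : cls (1 : Equiv.Perm (Fin n)) ∅ = univ := by
    unfold cls
    rw [Finset.filter_true_of_mem]
    intro τ _ x hx
    exact absurd hx (Finset.notMem_empty x)
  rw [hcls] at key
  have hev : (univ.filter (fun τ : Equiv.Perm (Fin n) => ∀ j : Fin R.card, bprod v τ (blk n R (e.symm j)) =
      t (e.symm j) * (if prv R (e.symm j) = 0 then 1 else t (prv R (e.symm j)))⁻¹)) =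
      univ.filter (fun τ : Equiv.Perm (Fin n) => ∀ r ∈ R, Tpr v τ r = t r) := by
    refine Finset.filter_congr fun τ _ => ?_
    rw [iff_blocks v τ R t h0]
    constructor
    · intro h r hr
      have h1 := h (e ⟨r, hr⟩)
      simpa using h1
    · intro h j
      exact h _ (e.symm j).2
  rw [hev] at key
  have hc : (0 : ℝ) < (univ : Finset (Equiv.Perm (Fin n))).card := by
    rw [card_univ]
    exact_mod_cast Fintype.card_pos
  unfold pr
  have h1 : ((univ.filter (fun τ : Equiv.Perm (Fin n) => ∀ r ∈ R, Tpr v τ r = t r)).card : ℝ) /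
      (Fintype.card (Equiv.Perm (Fin n)) : ℝ) - 1 / (Fintype.card G : ℝ) ^ R.card =
      (((univ.filter (fun τ : Equiv.Perm (Fin n) => ∀ r ∈ R, Tpr v τ r = t r)).card : ℝ) -
        ((univ : Finset (Equiv.Perm (Fin n))).card : ℝ) / (Fintype.card G : ℝ) ^ R.card) /
        ((univ : Finset (Equiv.Perm (Fin n))).card : ℝ) := by
    rw [card_univ] at hc ⊢
    field_simp
  have h2 : |((univ.filter (fun τ : Equiv.Perm (Fin n) => ∀ r ∈ R, Tpr v τ r = t r)).card : ℝ) /
      (Fintype.card (Equiv.Perm (Fin n)) : ℝ) - 1 / (Fintype.card G : ℝ) ^ R.card| ≤ (4 / 5 : ℝ) ^ L := by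
    rw [h1, abs_div, abs_of_pos hc, div_le_iff₀ hc]
    exact key
  convert h2

end Pool.Agent.Helper57.PF
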