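import Pool.Agent.Helper51.PF.Goals

/-! # Project PF, packet FARB -/

set_option autoImplicit false

open Finset

namespace Pool.Agent.Helper57.PF

open Pool.Agent.Helper51.PF

theorem g_farb (hFAR : G_FAR) : G_FARB := by
  intro G _ _ n L β v R B hv hn hL hR1 hR2 hB
  classical
  -- choice functions
  set C : Finset ((r : R) → G) := Fintype.piFinset (fun r : R => B r) with hC
  have hCc : (C.card : ℝ) = ∏ r ∈ R, ((B r).card : ℝ) := by
    rw [hC, Fintype.card_piFinset, Nat.cast_prod, ← Finset.prod_coe_sort R (fun r => ((B r).card : ℝ))]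
  let ext : ((r : R) → G) → ℕ → G := fun t r => if h : r ∈ R then t ⟨r, h⟩ else 1
  have hext : ∀ (t : (r : R) → G) (r : ℕ) (h : r ∈ R), ext t r = t ⟨r, h⟩ := fun t r h => dif_pos h
  have hc : (0 : ℝ) < (Fintype.card (Equiv.Perm (Fin n)) : ℝ) := by exact_mod_cast Fintype.card_pos
  have hcount : (univ.filter (fun τ : Equiv.Perm (Fin n) => ∀ r ∈ R, Tpr v τ r ∈ B r)).card =
      ∑ t ∈ C, (univ.filter (fun τ : Equiv.Perm (Fin n) => ∀ r ∈ R, Tpr v τ r = ext t r)).card := by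
    rw [Finset.card_eq_sum_card_fiberwise (f := fun (τ : Equiv.Perm (Fin n)) (r : R) => Tpr v τ r)
      (t := C)]
    · refine Finset.sum_congr rfl fun t ht => ?_
      rw [hC, Fintype.mem_piFinset] at ht
      congr 1
      ext τ
      simp only [mem_filter, mem_univ, true_and]
      constructor
      · rintro ⟨-, h⟩ r hr
        rw [hext t r hr, ← h]
      · intro h
        refine ⟨fun r hr => ?_, ?_⟩
        · rw [h r hr, hext t r hr]
          exact ht ⟨r, hr⟩
        · funext r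
          rw [h r.1 r.2, hext t r.1 r.2]
    · intro τ hτ
      rw [mem_coe, mem_filter] at hτ
      rw [mem_coe, hC, Fintype.mem_piFinset]
      intro r
      exact hτ.2 r.1 r.2
  have h1 : pr (fun τ : Equiv.Perm (Fin n) => ∀ r ∈ R, Tpr v τ r ∈ B r) =
      ∑ t ∈ C, pr (fun τ : Equiv.Perm (Fin n) => ∀ r ∈ R, Tpr v τ r = ext t r) := by
    unfold pr
    rw [← Finset.sum_div, ← Nat.cast_sum]
    congr 2
    convert hcount
  have h2 : ∏ r ∈ R, ((B r).card : ℝ) / (Fintype.card G : ℝ) =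
      ∑ t ∈ C, 1 / (Fintype.card G : ℝ) ^ R.card := by
    rw [Finset.sum_const, nsmul_eq_mul, hCc, Finset.prod_div_distrib, Finset.prod_const]
    ring
  have h3 : ∏ r ∈ R, ((B r).card : ℝ) ≤ (β : ℝ) ^ R.card := by
    rw [← Finset.prod_const]
    exact Finset.prod_le_prod (fun _ _ => Nat.cast_nonneg _) (fun r _ => by exact_mod_cast hB r)
  rw [h1, h2, ← Finset.sum_sub_distrib]
  calc |∑ t ∈ C, (pr (fun τ : Equiv.Perm (Fin n) => ∀ r ∈ R, Tpr v τ r = ext t r) -
        1 / (Fintype.card G : ℝ) ^ R.card)|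
      ≤ ∑ t ∈ C, |pr (fun τ : Equiv.Perm (Fin n) => ∀ r ∈ R, Tpr v τ r = ext t r) -
        1 / (Fintype.card G : ℝ) ^ R.card| := Finset.abs_sum_le_sum_abs _ _
    _ ≤ ∑ t ∈ C, (4 / 5 : ℝ) ^ L :=
        Finset.sum_le_sum fun t _ => hFAR G n L v R (ext t) hv hn hL hR1 hR2
    _ = (∏ r ∈ R, ((B r).card : ℝ)) * (4 / 5 : ℝ) ^ L := by
        rw [Finset.sum_const, nsmul_eq_mul, hCc]
    _ ≤ (β : ℝ) ^ R.card * (4 / 5 : ℝ) ^ L :=
        mul_le_mul_of_nonneg_right h3 (by positivity)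

end Pool.Agent.Helper57.PF
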