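import Pool.Agent.Helper51.PF.Goals

/-! # Project PF, packet PVX -/

set_option autoImplicit false

open Finset

namespace Pool.Agent.Helper57.PF

open Pool.Agent.Helper51.PF

theorem g_pvx (hMV : G_MV) (hVV : G_VV) (hPV : G_PV) : G_PVX := by
  refine ⟨⌈Real.exp 13⌉₊, fun p s hp hp0 hs hsp => ?_⟩
  have hpp : p.Prime := hp.out
  have hp13 : Real.exp 13 ≤ p := (Nat.le_ceil _).trans (by exact_mod_cast hp0)
  have hp14 : (14 : ℝ) ≤ p := by
    have := Real.add_one_le_exp (13 : ℝ)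
    linarith
  have hp3 : 3 ≤ p := by
    have : (3 : ℝ) ≤ p := by linarith
    exact_mod_cast this
  have hp0' : (0 : ℝ) < p := by linarith
  set lg := Real.log p with hlg
  have hlg13 : 13 ≤ lg := by
    rw [hlg, ← Real.log_exp 13]
    exact Real.log_le_log (Real.exp_pos _) hp13
  have hsq : 0 < Real.sqrt p := Real.sqrt_pos.2 hp0'
  have hsq2 : Real.sqrt p * Real.sqrt p = p := Real.mul_self_sqrt hp0'.le
  -- `hh p ≥ p / 3`
  have hodd : p % 2 = 1 := by
    rcases hpp.eq_two_or_odd with h | h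
    · omega
    · exact h
  have hh1 : 1 ≤ hh p := by unfold hh; omega
  have hhp : p ≤ 3 * hh p := by unfold hh; omega
  obtain ⟨-, -, m3, m4, m5, m6, -⟩ := hMV p s hh1 hs
  obtain ⟨v1, -⟩ := hVV p s hp3 hs
  -- `s < p`
  have hsp' : (s : ℝ) < p := by
    have h1 : (s : ℝ) * 1 ≤ (s : ℝ) * lg ^ 2 :=
      mul_le_mul_of_nonneg_left (by nlinarith only [hlg13]) (Nat.cast_nonneg _)
    have h2 : Real.sqrt p < p := by
      have h3 : 1 < Real.sqrt p := by
        rw [Real.lt_sqrt (by norm_num)]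
        linarith
      nlinarith only [h3, hsq2]
    linarith
  have hsp'' : s < p := by exact_mod_cast hsp'
  have hs0 : (s : ZMod p) ≠ 0 := by
    intro h
    rw [CharP.cast_eq_zero_iff (ZMod p) p] at h
    exact absurd (Nat.le_of_dvd hs h) (by omega)
  have hxx : ∀ j : ℕ, xx p s j = xx p s 0 + j * s := by
    intro j
    induction j with
    | zero => simp
    | succ j ih => rw [m6, ih]; ring
  -- `h ≤ k s`
  have hks : hh p ≤ kk p s * s := by
    unfold kk
    have h1 : hh p - 1 < s * ((hh p - 1) / s + 1) := Nat.lt_mul_div_succ _ hs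
    have h2 : s * ((hh p - 1) / s + 1) = ((hh p - 1) / s + 1) * s := mul_comm _ _
    omega
  intro ψ hψ
  set χ : MulChar (ZMod p) ℂ := MulChar.ofUnitHom ψ with hχ
  have hχv : ∀ g : (ZMod p)ˣ, χ (g : ZMod p) = ((ψ g : ℂˣ) : ℂ) := fun g =>
    MulChar.ofUnitHom_coe ψ g
  have hχ1 : χ ≠ 1 := by
    intro h
    apply hψ
    ext g
    rw [← hχv g, h, MulChar.one_apply_coe]
    rfl
  have hsum : ∑ x, ((ψ (vv p s x) : ℂˣ) : ℂ) =
      χ (s : ZMod p) * ∑ j ∈ range (kk p s), χ ((xx p s 0 : ZMod p) / s + (j : ZMod p)) := by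
    rw [mul_sum, ← Fin.sum_univ_eq_sum_range
      (fun j => χ (s : ZMod p) * χ ((xx p s 0 : ZMod p) / s + (j : ZMod p)))]
    refine sum_congr rfl fun j _ => ?_
    rw [← hχv, v1 j, ← map_mul, hxx]
    congr 1
    push_cast
    field_simp
  have hχs : ‖χ (s : ZMod p)‖ ≤ 1 := by
    have h1 : χ (s : ZMod p) ^ (Fintype.card (ZMod p)ˣ) = 1 := by
      have h2 : (s : ZMod p) = ((Units.mk0 (s : ZMod p) hs0 : (ZMod p)ˣ) : ZMod p) := rfl
      rw [h2, hχv, ← Units.val_pow_eq_pow_val, ← map_pow, pow_card_eq_one, map_one, Units.val_one]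
    exact (Complex.norm_eq_one_of_pow_eq_one h1 Fintype.card_ne_zero).le
  rw [hsum, norm_mul]
  have h1 := hPV p χ hχ1 ((xx p s 0 : ZMod p) / s) (kk p s)
  have h2 : ‖χ (s : ZMod p)‖ * ‖∑ j ∈ range (kk p s), χ ((xx p s 0 : ZMod p) / s + (j : ZMod p))‖ ≤
      1 * (Real.sqrt p * (1 + Real.log p)) :=
    mul_le_mul hχs h1 (norm_nonneg _) (by norm_num)
  refine h2.trans ?_
  rw [one_mul]
  -- `k ≥ sqrt p log² p / 3`
  have h3 : (p : ℝ) ≤ 3 * ((kk p s : ℝ) * s) := by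
    have h4 : p ≤ 3 * (kk p s * s) := hhp.trans (Nat.mul_le_mul_left 3 hks)
    exact_mod_cast h4
  have h4 : (p : ℝ) * lg ^ 2 ≤ 3 * (kk p s : ℝ) * Real.sqrt p := by
    have h5 := mul_le_mul_of_nonneg_right h3 (sq_nonneg lg)
    have h6 : 3 * (kk p s : ℝ) * ((s : ℝ) * lg ^ 2) ≤ 3 * (kk p s : ℝ) * Real.sqrt p :=
      mul_le_mul_of_nonneg_left hsp (by positivity)
    nlinarith only [h5, h6]
  have h5 : Real.sqrt p * lg ^ 2 ≤ 3 * (kk p s : ℝ) := by
    have h6 : Real.sqrt p * (Real.sqrt p * lg ^ 2) ≤ Real.sqrt p * (3 * (kk p s : ℝ)) := by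
      have h7 : Real.sqrt p * (Real.sqrt p * lg ^ 2) = (p : ℝ) * lg ^ 2 := by
        rw [← mul_assoc, hsq2]
      rw [h7]
      linarith
    exact le_of_mul_le_mul_left h6 hsq
  have h6 : Real.sqrt p * (12 * (1 + lg)) ≤ Real.sqrt p * lg ^ 2 :=
    mul_le_mul_of_nonneg_left (by nlinarith only [hlg13]) hsq.le
  linarith

end Pool.Agent.Helper57.PF
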